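import Mathlib
import Pool.Agent.Y235.JC.U5
import Pool.Agent.R470.Keller.Tz

set_option autoImplicit false
set_option linter.unusedSectionVars false

open MvPolynomial

namespace Pool.Agent.L5helper22.Trap

open Pool.Agent.Y235.JC
open Pool.Agent.H922R2.R

variable {k : Type*} [Field k] [CharZero k] [IsAlgClosed k]
variable {L : Type*} [Field L] [Algebra (MvPolynomial (Fin 2) k) L] [IsFractionRing (MvPolynomial (Fin 2) k) L]
  [Algebra k L] [IsScalarTower k (MvPolynomial (Fin 2) k) L]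

/-- an automorphism of the polynomial ring extends to the fraction field -/
theorem exists_ext (θ : MvPolynomial (Fin 2) k ≃ₐ[k] MvPolynomial (Fin 2) k) :
    ∃ e : L ≃ₐ[k] L, ∀ p, e (algebraMap (MvPolynomial (Fin 2) k) L p) =
      algebraMap (MvPolynomial (Fin 2) k) L (θ p) := by
  refine ⟨AlgEquiv.ofRingEquiv (f := IsFractionRing.ringEquivOfRingEquiv (K := L) (L := L) θ.toRingEquiv) ?_, ?_⟩
  · intro a
    rw [IsScalarTower.algebraMap_apply k (MvPolynomial (Fin 2) k) L a]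
    rw [IsFractionRing.ringEquivOfRingEquiv_algebraMap]
    congr 1
    exact θ.commutes a
  · intro p
    change IsFractionRing.ringEquivOfRingEquiv (K := L) (L := L) θ.toRingEquiv _ = _
    rw [IsFractionRing.ringEquivOfRingEquiv_algebraMap]
    rfl

theorem map_adjoin (e : L ≃ₐ[k] L) (S : Set L) (x : L) :
    e x ∈ IntermediateField.adjoin k (e '' S) ↔ x ∈ IntermediateField.adjoin k S := by
  have h := IntermediateField.adjoin_map k S (e : L →ₐ[k] L)
  have h2 : (⇑(e : L →ₐ[k] L)) '' S = e '' S := rfl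
  rw [h2] at h
  rw [← h]
  constructor
  · rintro ⟨y, hy, hxy⟩
    have : y = x := e.injective hxy
    rw [← this]; exact hy
  · intro hx
    exact ⟨x, hx, rfl⟩

section transport

variable (e : L ≃ₐ[k] L) (M : IntermediateField k L)

/-- the induced isomorphism of the subfields -/
noncomputable def sg : M ≃ₐ[k] M.map (e : L →ₐ[k] L) := IntermediateField.intermediateFieldMap e M

theorem sg_coe (x : M) : ((sg e M x : M.map (e : L →ₐ[k] L)) : L) = e x := rfl

/-- pulling back a valuation ring -/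
noncomputable def pb (O : ValuationSubring (M.map (e : L →ₐ[k] L))) : ValuationSubring M :=
  O.comap (sg e M : M →+* M.map (e : L →ₐ[k] L))

variable {e M}

theorem mem_pb {O : ValuationSubring (M.map (e : L →ₐ[k] L))} {x : M} : x ∈ pb e M O ↔ sg e M x ∈ O := Iff.rfl

theorem nu_pb {O : ValuationSubring (M.map (e : L →ₐ[k] L))} {x : M} :
    x ∈ (pb e M O).nonunits ↔ sg e M x ∈ O.nonunits := by
  rw [ValuationSubring.mem_nonunits_iff_or, ValuationSubring.mem_nonunits_iff_or, mem_pb, map_inv₀,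
    map_eq_zero_iff _ (sg e M).injective]

theorem top_pb {O : ValuationSubring (M.map (e : L →ₐ[k] L))} (h : O ≠ ⊤) : pb e M O ≠ ⊤ := by
  intro h1
  apply h
  rw [eq_top_iff]
  intro z _
  have h2 : (sg e M).symm z ∈ pb e M O := by rw [h1]; trivial
  rw [mem_pb, AlgEquiv.apply_symm_apply] at h2
  exact h2

theorem CU_pb {O : ValuationSubring (M.map (e : L →ₐ[k] L))} {a : L} (h : CU (e a) O) : CU a (pb e M O) := by
  intro z hz
  rw [mem_pb]
  apply h
  rw [sg_coe]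
  have := (map_adjoin e {a} (z : L)).2 hz
  rwa [Set.image_singleton] at this

theorem Ramif_pb {O : ValuationSubring (M.map (e : L →ₐ[k] L))} {a b : L} :
    Ramif (e a) (e b) O ↔ Ramif a b (pb e M O) := by
  constructor
  · intro h x hx hn
    obtain ⟨y, hy, z, hz, hyz⟩ := h (sg e M x) (by
      have := (map_adjoin e {a, b} (x : L)).2 hx
      rwa [Set.image_pair] at this) (nu_pb.1 hn)
    refine ⟨(sg e M).symm y, nu_pb.2 (by rwa [AlgEquiv.apply_symm_apply]), (sg e M).symm z,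
      nu_pb.2 (by rwa [AlgEquiv.apply_symm_apply]), ?_⟩
    rw [← map_mul, ← hyz, AlgEquiv.symm_apply_apply]
  · intro h x hx hn
    have hx' : (((sg e M).symm x : M) : L) ∈ IntermediateField.adjoin k {a, b} := by
      rw [← map_adjoin e, Set.image_pair, ← sg_coe, AlgEquiv.apply_symm_apply]
      exact hx
    obtain ⟨y, hy, z, hz, hyz⟩ := h ((sg e M).symm x) hx' (nu_pb.2 (by rwa [AlgEquiv.apply_symm_apply]))
    refine ⟨sg e M y, nu_pb.1 hy, sg e M z, nu_pb.1 hz, ?_⟩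
    rw [← map_mul, ← hyz, AlgEquiv.apply_symm_apply]

end transport

/-- the valuation criterion for an arbitrary polynomial `u` -/
theorem crit (u v : MvPolynomial (Fin 2) k) (δ : k) (hδ : δ ≠ 0) (hJ : Jb u v = C δ)
    (M : IntermediateField k L)
    (hMu : algebraMap (MvPolynomial (Fin 2) k) L u ∈ M)
    (hMv : algebraMap (MvPolynomial (Fin 2) k) L v ∈ M) (f : M) (hf : f ≠ 0)
    (h1 : ∀ O : ValuationSubring M, O ≠ ⊤ → CU (algebraMap (MvPolynomial (Fin 2) k) L u) O →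
      (⟨_, hMv⟩ : M) ∈ O → f ∈ O ∧ (f ∈ O.nonunits →
        Ramif (algebraMap (MvPolynomial (Fin 2) k) L u) (algebraMap (MvPolynomial (Fin 2) k) L v) O))
    (h2 : ∀ O₁ O₂ : ValuationSubring M, CU (algebraMap (MvPolynomial (Fin 2) k) L u) O₁ → (⟨_, hMv⟩ : M) ∉ O₁ →
      CU (algebraMap (MvPolynomial (Fin 2) k) L u) O₂ → (⟨_, hMv⟩ : M) ∉ O₂ →
      ∀ (a : ℕ) (b : ℤ) (ρ : M), 0 < a → (ρ : L) ∈ IntermediateField.adjoin k {algebraMap (MvPolynomial (Fin 2) k) L u} →
        ρ ≠ 0 → f ^ a * (⟨_, hMv⟩ : M) ^ b - ρ ∈ O₁.nonunits →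
        ∃ κ : k, κ ≠ 0 ∧ f ^ a * (⟨_, hMv⟩ : M) ^ b - algebraMap k M κ * ρ ∈ O₂.nonunits)
    (h3 : ∀ O : ValuationSubring M, O ≠ ⊤ → CU (algebraMap (MvPolynomial (Fin 2) k) L u) O → (⟨_, hMv⟩ : M) ∈ O →
      Ramif (algebraMap (MvPolynomial (Fin 2) k) L u) (algebraMap (MvPolynomial (Fin 2) k) L v) O → f ∈ O.nonunits) :
      M ≤ IntermediateField.adjoin k
        {algebraMap (MvPolynomial (Fin 2) k) L u, algebraMap (MvPolynomial (Fin 2) k) L v} := by
  have hu0 : ∀ a : k, u ≠ C a := by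
    rintro a rfl
    have : Jb (C a) v = 0 := by simp [Jb]
    rw [this] at hJ
    exact hδ (C_eq_zero.1 hJ.symm)
  obtain ⟨θ, hθ⟩ := exists_monY u hu0
  obtain ⟨e, he⟩ := exists_ext (L := L) θ
  have hJ' : ∃ δ' : k, δ' ≠ 0 ∧ Jb (θ u) (θ v) = C δ' := by
    have h4 : IsUnit (Pool.Agent.H922R2.jac ![u, v]).det := by
      rw [Pool.Agent.H922R2.det_jac, Pool.Agent.H922R2.DJ_apply]
      have : pderiv 0 u * pderiv 1 v - pderiv 1 u * pderiv 0 v = C δ := hJ
      simp only [Matrix.cons_val_zero, Matrix.cons_val_one, this]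
      exact (isUnit_iff_ne_zero.2 hδ).map C
    have h5 := Pool.Agent.H922R2.jac_comp θ _ h4
    obtain ⟨δ', hδ', he'⟩ := MvPolynomial.isUnit_iff_eq_C_of_isReduced.1
      (by rw [Pool.Agent.H922R2.det_jac] at h5; exact h5)
    refine ⟨δ', hδ'.ne_zero, ?_⟩
    rw [← he', Pool.Agent.H922R2.DJ_apply]; rfl
  obtain ⟨δ', hδ', hJ'⟩ := hJ'
  have hu1 : algebraMap (MvPolynomial (Fin 2) k) L (θ u) = e (algebraMap (MvPolynomial (Fin 2) k) L u) :=
    (he u).symm
  have hv1 : algebraMap (MvPolynomial (Fin 2) k) L (θ v) = e (algebraMap (MvPolynomial (Fin 2) k) L v) :=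
    (he v).symm
  have hMu' : algebraMap (MvPolynomial (Fin 2) k) L (θ u) ∈ M.map (e : L →ₐ[k] L) := by
    rw [hu1]; exact ⟨_, hMu, rfl⟩
  have hMv' : algebraMap (MvPolynomial (Fin 2) k) L (θ v) ∈ M.map (e : L →ₐ[k] L) := by
    rw [hv1]; exact ⟨_, hMv, rfl⟩
  have hsv : (⟨_, hMv'⟩ : M.map (e : L →ₐ[k] L)) = sg e M ⟨_, hMv⟩ := Subtype.ext (by rw [sg_coe]; exact hv1)
  have key := U_main (L := L) (u := θ u) (v := θ v) δ' hδ' hJ' hθ (M.map (e : L →ₐ[k] L)) hMu' hMv' (sg e M f)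
    (by rwa [Ne, map_eq_zero_iff _ (sg e M).injective]) (by
      intro O hO hc hv
      rw [hu1] at hc ⊢
      rw [hv1]
      rw [hsv] at hv
      obtain ⟨h6, h7⟩ := h1 (pb e M O) (top_pb hO) (CU_pb hc) (mem_pb.2 hv)
      exact ⟨mem_pb.1 h6, fun h8 => Ramif_pb.2 (h7 (nu_pb.2 h8))⟩) (by
      intro O₁ O₂ hc1 hv1' hc2 hv2' a b ρ ha hρ hρ0 hn
      rw [hu1] at hc1 hc2 hρ
      rw [hsv] at hv1' hv2' hn ⊢
      obtain ⟨κ, hκ, h9⟩ := h2 (pb e M O₁) (pb e M O₂) (CU_pb hc1) (fun h => hv1' (mem_pb.1 h)) (CU_pb hc2)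
        (fun h => hv2' (mem_pb.1 h)) a b ((sg e M).symm ρ) ha (by
          rw [← map_adjoin e, Set.image_singleton, ← sg_coe, AlgEquiv.apply_symm_apply]
          exact hρ) (by rwa [Ne, map_eq_zero_iff _ (sg e M).symm.injective]) (by
          rw [nu_pb, map_sub, map_mul, map_pow, map_zpow₀, AlgEquiv.apply_symm_apply]
          exact hn)
      refine ⟨κ, hκ, ?_⟩
      rw [nu_pb, map_sub, map_mul, map_mul, map_pow, map_zpow₀, AlgEquiv.apply_symm_apply, AlgEquiv.commutes] at h9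
      exact h9)
  have key2 := key.2 (by
      intro O hO hc hv hR
      rw [hu1] at hc hR
      rw [hv1] at hR
      rw [hsv] at hv
      exact nu_pb.1 (h3 (pb e M O) (top_pb hO) (CU_pb hc) (mem_pb.2 hv) (Ramif_pb.1 hR)))
  intro x hx
  have h10 := key2 (show e x ∈ M.map (e : L →ₐ[k] L) from ⟨x, hx, rfl⟩)
  rw [hu1, hv1, ← Set.image_pair, map_adjoin] at h10
  exact h10

end Pool.Agent.L5helper22.Trap
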